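import Pool.Agent.Helper40.OE.Defs

/-!
The algorithm and its invariants.
-/

open scoped ENNReal
open Finset Classical

noncomputable section

namespace Pool.Agent.Helper40.OE

/-- the standing assumptions on the parameters -/
structure Par (ε : ℝ) (Δ : ℕ) : Prop where
  pos : 0 < ε
  le : ε ≤ 1 / 2
  big : 8 / ε ^ 2 ≤ (Δ : ℝ)

variable {V : Type*} {Δ : ℕ} (ε : ℝ)

/-- the basic probability -/
def κ (Δ : ℕ) (ε : ℝ) : ℝ := (1 - ε) / Δ

/-- candidate probability -/
def pc (w : V → Fin Δ → ℝ) (f : Sym2 V) (c : Fin Δ) : ℝ :=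
  κ Δ ε * (f.map (fun x => w x c)).mul

/-- candidate after the first truncation -/
def ap (w : V → Fin Δ → ℝ) (f : Sym2 V) (c : Fin Δ) : ℝ :=
  if ∀ u ∈ f, w u c / (1 - pc ε w f c) ≤ 2 / ε then pc ε w f c else 0

/-- the probability used -/
def pol (w : V → Fin Δ → ℝ) (f : Sym2 V) (c : Fin Δ) : ℝ :=
  if ∑ c', ap ε w f c' ≤ 1 then ap ε w f c else 0

/-- the weights -/
def W : History V Δ → V → Fin Δ → ℝ
  | [] => fun _ _ => 1
  | (f, o) :: h => fun u c =>
      if u ∈ f then (if o = some c then 0 else W h u c / (1 - pol ε (W h) f c)) else W h u c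

/-- the distribution of the decision, as real numbers -/
def q (w : V → Fin Δ → ℝ) (f : Sym2 V) : Option (Fin Δ) → ℝ
  | some c => pol ε w f c
  | none => 1 - ∑ c, pol ε w f c

/-- good weights -/
def Good (w : V → Fin Δ → ℝ) : Prop := ∀ u c, 0 ≤ w u c ∧ w u c ≤ 2 / ε

variable {ε}

theorem Par.Δ_pos (H : Par ε Δ) : (0 : ℝ) < Δ := by
  have := H.pos
  have := H.big
  have h1 : 0 < 8 / ε ^ 2 := by positivity
  linarith

theorem κ_nonneg (H : Par ε Δ) : 0 ≤ κ Δ ε := by
  have := H.le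
  have := H.Δ_pos
  unfold κ
  apply div_nonneg <;> linarith

theorem κ_mul (H : Par ε Δ) : κ Δ ε * Δ = 1 - ε := by
  unfold κ
  have := H.Δ_pos
  field_simp

theorem κ_le (H : Par ε Δ) : κ Δ ε ≤ 1 / Δ := by
  unfold κ
  have h1 := H.Δ_pos
  have h2 := H.pos
  gcongr
  linarith

theorem κ_bound (H : Par ε Δ) : κ Δ ε * (4 / ε ^ 2) ≤ 1 / 2 := by
  have h1 := κ_le H
  have h2 := H.Δ_pos
  have h3 := H.pos
  have h4 := H.big
  have h5 : 0 < 4 / ε ^ 2 := by positivity
  calc κ Δ ε * (4 / ε ^ 2) ≤ 1 / Δ * (4 / ε ^ 2) := by gcongr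
    _ ≤ 1 / 2 := by
      rw [div_mul_eq_mul_div, one_mul, div_le_iff₀ h2]
      have : 8 / ε ^ 2 = 2 * (4 / ε ^ 2) := by ring
      linarith

theorem pc_mk (w : V → Fin Δ → ℝ) (x y : V) (c : Fin Δ) :
    pc ε w s(x, y) c = κ Δ ε * (w x c * w y c) := rfl

theorem pc_nonneg (H : Par ε Δ) {w : V → Fin Δ → ℝ} (hw : Good ε w) (f : Sym2 V) (c : Fin Δ) :
    0 ≤ pc ε w f c := by
  induction f with
  | _ x y =>
    rw [pc_mk]
    exact mul_nonneg (κ_nonneg H) (mul_nonneg (hw x c).1 (hw y c).1)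

theorem pc_le (H : Par ε Δ) {w : V → Fin Δ → ℝ} (hw : Good ε w) (f : Sym2 V) (c : Fin Δ) :
    pc ε w f c ≤ κ Δ ε * (4 / ε ^ 2) := by
  induction f with
  | _ x y =>
    rw [pc_mk]
    have h0 := H.pos
    refine mul_le_mul_of_nonneg_left ?_ (κ_nonneg H)
    calc w x c * w y c ≤ (2 / ε) * (2 / ε) :=
          mul_le_mul (hw x c).2 (hw y c).2 (hw y c).1 (by positivity)
      _ = 4 / ε ^ 2 := by ring

theorem pc_le_half (H : Par ε Δ) {w : V → Fin Δ → ℝ} (hw : Good ε w) (f : Sym2 V) (c : Fin Δ) :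
    pc ε w f c ≤ 1 / 2 := (pc_le H hw f c).trans (κ_bound H)

theorem ap_nonneg (H : Par ε Δ) {w : V → Fin Δ → ℝ} (hw : Good ε w) (f : Sym2 V) (c : Fin Δ) :
    0 ≤ ap ε w f c := by
  unfold ap
  split_ifs
  · exact pc_nonneg H hw f c
  · exact le_rfl

theorem ap_le (H : Par ε Δ) {w : V → Fin Δ → ℝ} (hw : Good ε w) (f : Sym2 V) (c : Fin Δ) :
    ap ε w f c ≤ pc ε w f c := by
  unfold ap
  split_ifs
  · exact le_rfl
  · exact pc_nonneg H hw f c

theorem pol_nonneg (H : Par ε Δ) {w : V → Fin Δ → ℝ} (hw : Good ε w) (f : Sym2 V) (c : Fin Δ) :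
    0 ≤ pol ε w f c := by
  unfold pol
  split_ifs
  · exact ap_nonneg H hw f c
  · exact le_rfl

theorem pol_le (H : Par ε Δ) {w : V → Fin Δ → ℝ} (hw : Good ε w) (f : Sym2 V) (c : Fin Δ) :
    pol ε w f c ≤ pc ε w f c := by
  unfold pol
  split_ifs
  · exact ap_le H hw f c
  · exact pc_nonneg H hw f c

theorem pol_le_half (H : Par ε Δ) {w : V → Fin Δ → ℝ} (hw : Good ε w) (f : Sym2 V)
    (c : Fin Δ) : pol ε w f c ≤ 1 / 2 := (pol_le H hw f c).trans (pc_le_half H hw f c)

theorem sum_pol_le (w : V → Fin Δ → ℝ) (f : Sym2 V) : ∑ c, pol ε w f c ≤ 1 := by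
  unfold pol
  split_ifs with h
  · exact h
  · simp

theorem W_good (H : Par ε Δ) (h : History V Δ) : Good ε (W ε h) := by
  have hp := H.pos
  induction h with
  | nil =>
    intro u c
    refine ⟨zero_le_one, ?_⟩
    simp only [W]
    rw [le_div_iff₀ hp]
    linarith [H.le]
  | cons fo h ih =>
    obtain ⟨f, o⟩ := fo
    intro u c
    simp only [W]
    split_ifs with h1 h2
    · exact ⟨le_rfl, by positivity⟩
    · have h3 := pol_le_half H ih f c
      refine ⟨div_nonneg (ih u c).1 (by linarith), ?_⟩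
      by_cases h4 : pol ε (W ε h) f c = 0
      · rw [h4, sub_zero, div_one]; exact (ih u c).2
      · have h5 : pol ε (W ε h) f c = pc ε (W ε h) f c ∧
            ∀ u ∈ f, W ε h u c / (1 - pc ε (W ε h) f c) ≤ 2 / ε := by
          unfold pol at h4 ⊢
          split_ifs at h4 ⊢ with h6
          · unfold ap at h4 ⊢
            split_ifs at h4 ⊢ with h7
            · exact ⟨rfl, h7⟩
            · exact absurd rfl h4
          · exact absurd rfl h4
        rw [h5.1]
        exact h5.2 u h1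
    · exact ih u c

theorem q_nonneg (H : Par ε Δ) {w : V → Fin Δ → ℝ} (hw : Good ε w) (f : Sym2 V)
    (o : Option (Fin Δ)) : 0 ≤ q ε w f o := by
  cases o with
  | none => simp only [q]; linarith [sum_pol_le (ε := ε) w f]
  | some c => exact pol_nonneg H hw f c

theorem sum_q (w : V → Fin Δ → ℝ) (f : Sym2 V) : ∑ o, q ε w f o = 1 := by
  rw [Fintype.sum_option]
  simp [q]

/-- a used colour has weight zero -/
theorem W_used {h : History V Δ} {f : Sym2 V} {c : Fin Δ} {v : V} (hf : (f, some c) ∈ h)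
    (hv : v ∈ f) : W ε h v c = 0 := by
  induction h with
  | nil => simp at hf
  | cons go h ih =>
    obtain ⟨g, o⟩ := go
    simp only [W]
    rcases List.mem_cons.1 hf with h1 | h1
    · rw [Prod.mk.injEq] at h1
      rw [← h1.1, ← h1.2, if_pos hv, if_pos rfl]
    · rw [ih h1]
      split_ifs <;> simp

theorem pol_used {w : V → Fin Δ → ℝ} {e : Sym2 V} {c : Fin Δ} {v : V} (hv : v ∈ e)
    (hw : w v c = 0) : pol ε w e c = 0 := by
  have h1 : pc ε w e c = 0 := by
    induction e with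
    | _ x y =>
      rw [pc_mk]
      rcases Sym2.mem_iff.1 hv with rfl | rfl <;> simp [hw]
  unfold pol ap
  rw [h1]
  split_ifs <;> rfl

/-- the algorithm -/
def alg (V : Type*) (H : Par ε Δ) : OnlineAlg V Δ where
  choose h e := PMF.ofFintype (fun o => ENNReal.ofReal (q ε (W ε h) e o)) (by
    rw [← ENNReal.ofReal_sum_of_nonneg (fun o _ => q_nonneg H (W_good H h) e o), sum_q,
      ENNReal.ofReal_one])
  proper h e f c v hf hvf hve := by
    rw [PMF.mem_support_iff, not_not, PMF.ofFintype_apply]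
    have : q ε (W ε h) e (some c) = pol ε (W ε h) e c := rfl
    rw [this, pol_used hve (W_used hf hvf), ENNReal.ofReal_zero]

/-- expectation over the decisions for a list of arrivals -/
def Ex (ε : ℝ) : List (Sym2 V) → History V Δ → (History V Δ → ℝ) → ℝ
  | [], h, φ => φ h
  | f :: r, h, φ => ∑ o, q ε (W ε h) f o * Ex ε r ((f, o) :: h) φ

theorem Ex_mono (H : Par ε Δ) (r : List (Sym2 V)) (h : History V Δ) {φ ψ : History V Δ → ℝ}
    (hφ : ∀ h, φ h ≤ ψ h) : Ex ε r h φ ≤ Ex ε r h ψ := by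
  induction r generalizing h with
  | nil => exact hφ h
  | cons f r ih =>
    exact Finset.sum_le_sum fun o _ =>
      mul_le_mul_of_nonneg_left (ih _) (q_nonneg H (W_good H h) f o)

theorem Ex_add (r : List (Sym2 V)) (h : History V Δ) (φ ψ : History V Δ → ℝ) :
    Ex ε r h (fun h => φ h + ψ h) = Ex ε r h φ + Ex ε r h ψ := by
  induction r generalizing h with
  | nil => rfl
  | cons f r ih =>
    simp only [Ex, ih, mul_add, Finset.sum_add_distrib]

theorem Ex_mul (r : List (Sym2 V)) (h : History V Δ) (a : ℝ) (φ : History V Δ → ℝ) :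
    Ex ε r h (fun h => a * φ h) = a * Ex ε r h φ := by
  induction r generalizing h with
  | nil => rfl
  | cons f r ih =>
    simp only [Ex, ih, Finset.mul_sum]
    exact Finset.sum_congr rfl fun o _ => by ring

theorem Ex_const (r : List (Sym2 V)) (h : History V Δ) (a : ℝ) :
    Ex ε r h (fun _ => a) = a := by
  induction r generalizing h with
  | nil => rfl
  | cons f r ih =>
    simp only [Ex, ih, ← Finset.sum_mul, sum_q, one_mul]

theorem Ex_sum {ι : Type*} (s : Finset ι) (r : List (Sym2 V)) (h : History V Δ)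
    (φ : ι → History V Δ → ℝ) :
    Ex ε r h (fun h => ∑ i ∈ s, φ i h) = ∑ i ∈ s, Ex ε r h (φ i) := by
  induction r generalizing h with
  | nil => rfl
  | cons f r ih =>
    simp only [Ex, ih, Finset.mul_sum]
    rw [Finset.sum_comm]

/-- supermartingale lemma -/
theorem Ex_super (H : Par ε Δ) (Φ : History V Δ → List (Sym2 V) → ℝ) (post : List (Sym2 V))
    (hstep : ∀ h f r, (∀ g ∈ post, g ∈ r) → f ∉ r →
      ∑ o, q ε (W ε h) f o * Φ ((f, o) :: h) r ≤ Φ h (f :: r))
    (pre : List (Sym2 V)) (h : History V Δ) (hnd : (pre ++ post).Nodup) :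
    Ex ε pre h (fun h' => Φ h' post) ≤ Φ h (pre ++ post) := by
  induction pre generalizing h with
  | nil => exact le_rfl
  | cons f r ih =>
    have h1 : f ∉ r ++ post ∧ (r ++ post).Nodup := List.nodup_cons.1 hnd
    calc Ex ε (f :: r) h (fun h' => Φ h' post)
        = ∑ o, q ε (W ε h) f o * Ex ε r ((f, o) :: h) (fun h' => Φ h' post) := rfl
      _ ≤ ∑ o, q ε (W ε h) f o * Φ ((f, o) :: h) (r ++ post) :=
          Finset.sum_le_sum fun o _ =>
            mul_le_mul_of_nonneg_left (ih _ h1.2) (q_nonneg H (W_good H h) f o)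
      _ ≤ Φ h (f :: (r ++ post)) :=
          hstep h f (r ++ post) (fun g hg => List.mem_append_right _ hg) h1.1

/-! ### One step -/

/-- the random factor for colour `c` -/
def X (ε : ℝ) (w : V → Fin Δ → ℝ) (f : Sym2 V) (c : Fin Δ) (o : Option (Fin Δ)) : ℝ :=
  if o = some c then 0 else (1 - pol ε w f c)⁻¹

theorem W_cons (h : History V Δ) (f : Sym2 V) (o : Option (Fin Δ)) (u : V) (c : Fin Δ) :
    W ε ((f, o) :: h) u c = if u ∈ f then W ε h u c * X ε (W ε h) f c o else W ε h u c := by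
  simp only [W, X]
  split_ifs <;> simp [div_eq_mul_inv]

theorem sum_q_ite (w : V → Fin Δ → ℝ) (f : Sym2 V) (c : Fin Δ) (a : ℝ) :
    ∑ o, q ε w f o * (if o = some c then a else 0) = pol ε w f c * a := by
  rw [Finset.sum_eq_single (some c)]
  · simp [q]
  · intro o _ ho; rw [if_neg ho, mul_zero]
  · intro hh; exact absurd (Finset.mem_univ _) hh

theorem EX_one (H : Par ε Δ) {w : V → Fin Δ → ℝ} (hw : Good ε w) (f : Sym2 V) (c : Fin Δ) :
    ∑ o, q ε w f o * X ε w f c o = 1 := by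
  have hp := pol_le_half H hw f c
  have h0 : 1 - pol ε w f c ≠ 0 := by linarith
  have h1 : ∀ o, q ε w f o * X ε w f c o = q ε w f o * (1 - pol ε w f c)⁻¹ -
      q ε w f o * (if o = some c then (1 - pol ε w f c)⁻¹ else 0) := by
    intro o
    unfold X
    split_ifs <;> ring
  rw [Finset.sum_congr rfl fun o _ => h1 o, Finset.sum_sub_distrib, ← Finset.sum_mul, sum_q,
    sum_q_ite]
  field_simp

theorem EXX (H : Par ε Δ) {w : V → Fin Δ → ℝ} (hw : Good ε w) (f : Sym2 V) {c c' : Fin Δ}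
    (hc : c ≠ c') : ∑ o, q ε w f o * (X ε w f c o * X ε w f c' o) ≤ 1 := by
  have hp := pol_le_half H hw f c
  have hp' := pol_le_half H hw f c'
  have hn := pol_nonneg H hw f c
  have hn' := pol_nonneg H hw f c'
  have h0 : 0 < 1 - pol ε w f c := by linarith
  have h0' : 0 < 1 - pol ε w f c' := by linarith
  set a := (1 - pol ε w f c)⁻¹ with ha
  set b := (1 - pol ε w f c')⁻¹ with hb
  have h1 : ∀ o, q ε w f o * (X ε w f c o * X ε w f c' o) = q ε w f o * (a * b) -
      q ε w f o * (if o = some c then a * b else 0) -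
      q ε w f o * (if o = some c' then a * b else 0) := by
    intro o
    unfold X
    by_cases e1 : o = some c
    · have e2 : o ≠ some c' := by rw [e1]; simpa using hc
      simp [e1, hc]
    · by_cases e2 : o = some c'
      · simp [e2, Ne.symm hc]
      · simp [e1, e2, ← ha, ← hb]
  rw [Finset.sum_congr rfl fun o _ => h1 o, Finset.sum_sub_distrib, Finset.sum_sub_distrib,
    ← Finset.sum_mul, sum_q, sum_q_ite, sum_q_ite]
  have h2 : 1 * (a * b) - pol ε w f c * (a * b) - pol ε w f c' * (a * b) =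
      (1 - pol ε w f c - pol ε w f c') / ((1 - pol ε w f c) * (1 - pol ε w f c')) := by
    rw [ha, hb]; field_simp
  rw [h2, div_le_one (by positivity)]
  nlinarith [mul_nonneg hn hn']

/-- second moment of the factor -/
def v2 (ε : ℝ) (w : V → Fin Δ → ℝ) (f : Sym2 V) (c : Fin Δ) : ℝ :=
  ∑ o, q ε w f o * (X ε w f c o) ^ 2

theorem v2_ge (H : Par ε Δ) {w : V → Fin Δ → ℝ} (hw : Good ε w) (f : Sym2 V) (c : Fin Δ) :
    1 ≤ v2 ε w f c := by
  have h1 : 0 ≤ ∑ o, q ε w f o * (X ε w f c o - 1) ^ 2 :=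
    Finset.sum_nonneg fun o _ => mul_nonneg (q_nonneg H hw f o) (sq_nonneg _)
  have h2 : ∑ o, q ε w f o * (X ε w f c o - 1) ^ 2 = v2 ε w f c - 1 := by
    have h3 : ∀ o, q ε w f o * (X ε w f c o - 1) ^ 2 = q ε w f o * (X ε w f c o) ^ 2 -
        2 * (q ε w f o * X ε w f c o) + q ε w f o := by intro o; ring
    rw [Finset.sum_congr rfl fun o _ => h3 o, Finset.sum_add_distrib, Finset.sum_sub_distrib,
      ← Finset.mul_sum, EX_one H hw, sum_q]
    unfold v2; ring
  linarith

end Pool.Agent.Helper40.OE
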