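import Mathlib

/-!
Online partial edge colouring with `Δ` colours (MP_8fc531_lc): the model.
-/

open scoped ENNReal

noncomputable section

namespace Pool.Agent.Helper40.OE

/-- What has happened so far: the edges that have arrived, each with the colour it was given, or
`none` if it was left uncoloured. The latest edge is the head of the list. -/
abbrev History (V : Type*) (Δ : ℕ) := List (Sym2 V × Option (Fin Δ))

/-- A randomised online algorithm on the vertex set `V` with `Δ` colours. When an edge arrives,
the algorithm draws its colour, or `none`, from a distribution that depends on the past arrivals
and decisions and on the new edge. A colour already present at an end point is never drawn. -/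
structure OnlineAlg (V : Type*) (Δ : ℕ) where
  /-- the distribution of the decision -/
  choose : History V Δ → Sym2 V → PMF (Option (Fin Δ))
  /-- the partial edge colouring stays proper -/
  proper : ∀ (h : History V Δ) (e f : Sym2 V) (c : Fin Δ) (v : V),
    (f, some c) ∈ h → v ∈ f → v ∈ e → some c ∉ (choose h e).support

/-- The random final history when the algorithm is in the situation `h` and the edges of the list
arrive in this order. -/
def OnlineAlg.run {V : Type*} {Δ : ℕ} (A : OnlineAlg V Δ) :
    History V Δ → List (Sym2 V) → PMF (History V Δ)
  | h, [] => PMF.pure h
  | h, e :: es => (A.choose h e).bind fun o => A.run ((e, o) :: h) es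

/-- The probability that the algorithm colours the edge `e` when the edges of the list `es` arrive
in this order. -/
def OnlineAlg.probColoured {V : Type*} {Δ : ℕ} (A : OnlineAlg V Δ) (es : List (Sym2 V))
    (e : Sym2 V) : ℝ≥0∞ :=
  (A.run [] es).toOuterMeasure {h | ∃ c : Fin Δ, (e, some c) ∈ h}

end Pool.Agent.Helper40.OE
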