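import Pool.Agent.Helper40.OE.Pot

/-!
The main estimate and the link with the probability.
-/

open scoped ENNReal
open Finset Classical

noncomputable section

namespace Pool.Agent.Helper40.OE

variable {V : Type*} [Fintype V] {Δ : ℕ} {ε : ℝ}

omit [Fintype V] in
theorem T_nil (H : Par ε Δ) (u v : V) : T ε u v ([] : History V Δ) = 1 - ε := by
  unfold T
  simp only [W, mul_one, Finset.sum_const, Finset.card_univ, Fintype.card_fin, nsmul_eq_mul]
  exact κ_mul H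

theorem M_nil (H : Par ε Δ) (u : V) (c : Fin Δ) {es : List (Sym2 V)}
    (hdeg : (Finset.univ.filter fun w => s(u, w) ∈ es).card ≤ Δ) :
    M ε u c ([] : History V Δ) es ≤ 1 - ε := by
  have h1 : M ε u c ([] : History V Δ) es =
      κ Δ ε * ((Finset.univ.filter fun w => s(u, w) ∈ es).card : ℝ) := by
    unfold M
    simp only [Z, W, zero_add]
    rw [Finset.sum_boole]
  rw [h1, ← κ_mul H]
  exact mul_le_mul_of_nonneg_left (by exact_mod_cast hdeg) (κ_nonneg H)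

omit [Fintype V] in
theorem Q_le (H : Par ε Δ) (u v : V) (h : History V Δ) :
    κ Δ ε * Q ε u v h ≤ 4 / ε ^ 2 * T ε u v h := by
  have hp := H.pos
  have hW := W_good H h
  unfold Q T
  have h1 : ∑ c, (W ε h u c * W ε h v c) ^ 2 ≤ 4 / ε ^ 2 * ∑ c, W ε h u c * W ε h v c := by
    rw [Finset.mul_sum]
    refine Finset.sum_le_sum fun c _ => ?_
    rw [sq]
    refine mul_le_mul_of_nonneg_right ?_ (mul_nonneg (hW u c).1 (hW v c).1)
    calc W ε h u c * W ε h v c ≤ (2 / ε) * (2 / ε) :=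
          mul_le_mul (hW u c).2 (hW v c).2 (hW v c).1 (by positivity)
      _ = 4 / ε ^ 2 := by ring
  have h2 := mul_le_mul_of_nonneg_left h1 (κ_nonneg H)
  linarith

omit [Fintype V] in
theorem Q_nonneg (u v : V) (h : History V Δ) : 0 ≤ Q ε u v h :=
  Finset.sum_nonneg fun _ _ => sq_nonneg _

omit [Fintype V] in
theorem Ex_T_sq (H : Par ε Δ) {u v : V} (huv : u ≠ v) {pre post : List (Sym2 V)}
    (hnd : (pre ++ s(u, v) :: post).Nodup) :
    Ex ε pre ([] : History V Δ) (fun h => (T ε u v h - (1 - ε)) ^ 2) ≤ 4 * κ Δ ε / ε ^ 2 := by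
  have hp := H.pos
  have hk := κ_nonneg H
  have h1 := Ex_TQ H huv hnd (1 - ε)
  have h2 := Q_nonneg (ε := ε) u v ([] : History V Δ)
  have h3 : Ex ε pre ([] : History V Δ) (fun h => (T ε u v h - (1 - ε)) ^ 2) =
      Ex ε pre ([] : History V Δ) (fun h => (T ε u v h - (1 - ε)) ^ 2 -
        κ Δ ε ^ 2 * Q ε u v h) +
      Ex ε pre ([] : History V Δ) (fun h => κ Δ ε ^ 2 * Q ε u v h) := by
    rw [← Ex_add]; congr 1; funext h; ring
  have h4 : Ex ε pre ([] : History V Δ) (fun h => κ Δ ε ^ 2 * Q ε u v h) ≤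
      Ex ε pre ([] : History V Δ) (fun h => (4 * κ Δ ε / ε ^ 2) * T ε u v h) := by
    refine Ex_mono H pre [] fun h => ?_
    have := mul_le_mul_of_nonneg_left (Q_le H u v h) hk
    have e1 : κ Δ ε ^ 2 * Q ε u v h = κ Δ ε * (κ Δ ε * Q ε u v h) := by ring
    have e2 : (4 * κ Δ ε / ε ^ 2) * T ε u v h = κ Δ ε * (4 / ε ^ 2 * T ε u v h) := by ring
    rw [e1, e2]
    exact this
  have h5 := Ex_T H huv hnd (4 * κ Δ ε / ε ^ 2)
  have h6 : 0 ≤ 4 * κ Δ ε / ε ^ 2 := by positivity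
  have h7 : (4 * κ Δ ε / ε ^ 2) * T ε u v ([] : History V Δ) ≤ (4 * κ Δ ε / ε ^ 2) * 1 := by
    refine mul_le_mul_of_nonneg_left ?_ h6
    rw [T_nil H]; linarith
  have h8 : 0 ≤ κ Δ ε ^ 2 * Q ε u v ([] : History V Δ) := by positivity
  have h9 : (T ε u v ([] : History V Δ) - (1 - ε)) ^ 2 = 0 := by
    rw [T_nil H, sub_self]; norm_num
  rw [h3]
  linarith

/-- the first truncation, one colour -/
theorem ap_ge (H : Par ε Δ) {u v : V} (h : History V Δ) {r : List (Sym2 V)}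
    (he : s(u, v) ∈ r) (c : Fin Δ) {mu mv : ℝ} (hmu : mu ≤ 1 - ε) (hmv : mv ≤ 1 - ε) :
    κ Δ ε * (W ε h u c * W ε h v c) -
      κ Δ ε * (16 / ε ^ 4) * ((M ε u c h r - mu) ^ 2 + (M ε v c h r - mv) ^ 2) ≤
      ap ε (W ε h) s(u, v) c := by
  have hp := H.pos
  have hW := W_good H h
  have hk := κ_nonneg H
  have hK : 0 ≤ κ Δ ε * (16 / ε ^ 4) := by positivity
  have key : ∀ {m M' : ℝ}, m ≤ 1 - ε → 1 - ε / 2 < M' → ε ^ 2 / 4 ≤ (M' - m) ^ 2 := by
    intro m M' h1 h2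
    have h3 : ε / 2 ≤ M' - m := by linarith
    have h4 : 0 ≤ ε / 2 := by positivity
    calc ε ^ 2 / 4 = (ε / 2) ^ 2 := by ring
      _ ≤ (M' - m) ^ 2 := pow_le_pow_left₀ h4 h3 2
  have hpc : κ Δ ε * (W ε h u c * W ε h v c) ≤ κ Δ ε * (4 / ε ^ 2) := by
    have := pc_le H hW s(u, v) c
    rwa [pc_mk] at this
  have hbig : ∀ {X : ℝ}, ε ^ 2 / 4 ≤ X →
      κ Δ ε * (4 / ε ^ 2) ≤ κ Δ ε * (16 / ε ^ 4) * X := by
    intro X hX
    calc κ Δ ε * (4 / ε ^ 2) = κ Δ ε * (16 / ε ^ 4) * (ε ^ 2 / 4) := by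
          field_simp; ring
      _ ≤ κ Δ ε * (16 / ε ^ 4) * X := mul_le_mul_of_nonneg_left hX hK
  unfold ap
  split_ifs with h1
  · rw [pc_mk]
    have : 0 ≤ κ Δ ε * (16 / ε ^ 4) *
        ((M ε u c h r - mu) ^ 2 + (M ε v c h r - mv) ^ 2) := by positivity
    linarith
  · push Not at h1
    obtain ⟨x, hx, hx2⟩ := h1
    rw [pc_mk] at hx2
    rcases Sym2.mem_iff.1 hx with rfl | rfl
    · have h2 := M_large H c h he hx2
      have h3 := key hmu h2
      have h4 := hbig (h3.trans (le_add_of_nonneg_right (sq_nonneg (M ε v c h r - mv))))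
      linarith
    · have he' : s(x, u) ∈ r := by rw [Sym2.eq_swap]; exact he
      rw [mul_comm (W ε h u c)] at hx2
      have h2 := M_large H c h he' hx2
      have h3 := key hmv h2
      have h4 := hbig (h3.trans (le_add_of_nonneg_left (sq_nonneg (M ε u c h r - mu))))
      linarith

/-- both truncations -/
theorem sum_pol_ge (H : Par ε Δ) {u v : V} (h : History V Δ) {r : List (Sym2 V)}
    (he : s(u, v) ∈ r) (mu mv : Fin Δ → ℝ) (hmu : ∀ c, mu c ≤ 1 - ε)
    (hmv : ∀ c, mv c ≤ 1 - ε) :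
    T ε u v h + ((-1) * (∑ c, κ Δ ε * (16 / ε ^ 4) *
      ((M ε u c h r - mu c) ^ 2 + (M ε v c h r - mv c) ^ 2)) +
      (-(2 / ε ^ 2)) * (T ε u v h - (1 - ε)) ^ 2) ≤ ∑ c, pol ε (W ε h) s(u, v) c := by
  have hp := H.pos
  have hle := H.le
  have hW := W_good H h
  have h1 : T ε u v h - (∑ c, κ Δ ε * (16 / ε ^ 4) *
      ((M ε u c h r - mu c) ^ 2 + (M ε v c h r - mv c) ^ 2)) ≤
      ∑ c, ap ε (W ε h) s(u, v) c := by
    unfold T
    rw [Finset.mul_sum, ← Finset.sum_sub_distrib]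
    exact Finset.sum_le_sum fun c _ => ap_ge H h he c (hmu c) (hmv c)
  have h2 : ∑ c, ap ε (W ε h) s(u, v) c ≤ T ε u v h := by
    unfold T
    rw [Finset.mul_sum]
    refine Finset.sum_le_sum fun c _ => ?_
    have := ap_le H hW s(u, v) c
    rwa [pc_mk] at this
  have h3 : ∑ c, ap ε (W ε h) s(u, v) c - 2 / ε ^ 2 * (T ε u v h - (1 - ε)) ^ 2 ≤
      ∑ c, pol ε (W ε h) s(u, v) c := by
    by_cases h4 : ∑ c, ap ε (W ε h) s(u, v) c ≤ 1
    · have h5 : ∑ c, pol ε (W ε h) s(u, v) c = ∑ c, ap ε (W ε h) s(u, v) c := by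
        unfold pol
        exact Finset.sum_congr rfl fun c _ => by rw [if_pos h4]
      rw [h5]
      have : 0 ≤ 2 / ε ^ 2 * (T ε u v h - (1 - ε)) ^ 2 := by positivity
      linarith
    · have h5 : 0 ≤ ∑ c, pol ε (W ε h) s(u, v) c :=
        Finset.sum_nonneg fun c _ => pol_nonneg H hW _ c
      push Not at h4
      set d := T ε u v h - (1 - ε) with hd
      have h6 : ε < d := by linarith
      have h7 : T ε u v h = d + (1 - ε) := by rw [hd]; ring
      have h8 : d + (1 - ε) ≤ 2 / ε ^ 2 * d ^ 2 := by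
        rw [div_mul_eq_mul_div, le_div_iff₀ (by positivity)]
        have h9 : ε ^ 2 ≤ d ^ 2 := pow_le_pow_left₀ hp.le h6.le 2
        have h10 : d * ε ^ 2 ≤ d ^ 2 := by
          have : d * ε ^ 2 ≤ d * d := by
            refine mul_le_mul_of_nonneg_left ?_ (by linarith)
            nlinarith
          linarith [sq d]
        nlinarith
      linarith
  linarith

theorem Ex_sum_pol (H : Par ε Δ) {u v : V} (huv : u ≠ v) {pre post : List (Sym2 V)}
    (hnd : (pre ++ s(u, v) :: post).Nodup)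
    (hdeg : ∀ x : V,
      (Finset.univ.filter fun w => s(x, w) ∈ pre ++ s(u, v) :: post).card ≤ Δ) :
    1 - ε - 128 * κ Δ ε ^ 2 * Δ / ε ^ 5 - 8 * κ Δ ε / ε ^ 4 ≤
      Ex ε pre ([] : History V Δ) (fun h => ∑ c, pol ε (W ε h) s(u, v) c) := by
  have hp := H.pos
  have hle := H.le
  have hk := κ_nonneg H
  set es := pre ++ s(u, v) :: post with hes
  set m : V → Fin Δ → ℝ := fun x c => M ε x c ([] : History V Δ) es with hm
  have hm1 : ∀ x c, m x c ≤ 1 - ε := fun x c => M_nil H x c (hdeg x)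
  have h1 : Ex ε pre ([] : History V Δ) (fun h => T ε u v h + ((-1) *
      (∑ c, κ Δ ε * (16 / ε ^ 4) * ((M ε u c h (s(u, v) :: post) - m u c) ^ 2 +
        (M ε v c h (s(u, v) :: post) - m v c) ^ 2)) +
      (-(2 / ε ^ 2)) * (T ε u v h - (1 - ε)) ^ 2)) ≤
      Ex ε pre [] (fun h => ∑ c, pol ε (W ε h) s(u, v) c) :=
    Ex_mono H pre [] fun h => sum_pol_ge H h (by simp) (m u) (m v) (hm1 u) (hm1 v)
  rw [Ex_add, Ex_add, Ex_mul, Ex_mul, Ex_sum] at h1
  have h2 : ∀ c : Fin Δ, Ex ε pre ([] : History V Δ) (fun h => κ Δ ε * (16 / ε ^ 4) *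
      ((M ε u c h (s(u, v) :: post) - m u c) ^ 2 +
        (M ε v c h (s(u, v) :: post) - m v c) ^ 2)) ≤ 128 * κ Δ ε ^ 2 / ε ^ 5 := by
    intro c
    rw [Ex_mul, Ex_add]
    have e1 := Ex_M_sq H u c hnd ((hm1 u c).trans (by linarith))
    have e2 := Ex_M_sq H v c hnd ((hm1 v c).trans (by linarith))
    have hK : 0 ≤ κ Δ ε * (16 / ε ^ 4) := by positivity
    calc κ Δ ε * (16 / ε ^ 4) * (_ + _) ≤
          κ Δ ε * (16 / ε ^ 4) * (4 * κ Δ ε / ε + 4 * κ Δ ε / ε) :=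
          mul_le_mul_of_nonneg_left (add_le_add e1 e2) hK
      _ = 128 * κ Δ ε ^ 2 / ε ^ 5 := by field_simp; ring
  have h3 := Finset.sum_le_sum fun c (_ : c ∈ (Finset.univ : Finset (Fin Δ))) => h2 c
  rw [Finset.sum_const, Finset.card_univ, Fintype.card_fin, nsmul_eq_mul] at h3
  have h4 := Ex_T H huv hnd (-1)
  rw [T_nil H, Ex_mul] at h4
  have h5 := mul_le_mul_of_nonneg_left (Ex_T_sq H huv hnd) (by positivity : 0 ≤ 2 / ε ^ 2)
  have e3 : 2 / ε ^ 2 * (4 * κ Δ ε / ε ^ 2) = 8 * κ Δ ε / ε ^ 4 := by field_simp; ring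
  have e4 : (Δ : ℝ) * (128 * κ Δ ε ^ 2 / ε ^ 5) = 128 * κ Δ ε ^ 2 * Δ / ε ^ 5 := by ring
  rw [e3] at h5
  rw [e4] at h3
  linarith

/-! ### The link with the probability -/

omit [Fintype V] in
theorem run_of_mem (A : OnlineAlg V Δ) {e : Sym2 V} {c : Fin Δ} (es : List (Sym2 V))
    {h : History V Δ} (hm : (e, some c) ∈ h) :
    (A.run h es).toOuterMeasure {h | ∃ c : Fin Δ, (e, some c) ∈ h} = 1 := by
  induction es generalizing h with
  | nil =>
    simp only [OnlineAlg.run]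
    rw [PMF.toOuterMeasure_pure_apply, if_pos ⟨c, hm⟩]
  | cons f es ih =>
    simp only [OnlineAlg.run]
    rw [PMF.toOuterMeasure_bind_apply]
    have h1 : ∀ o, (A.choose h f) o *
        (A.run ((f, o) :: h) es).toOuterMeasure {h | ∃ c : Fin Δ, (e, some c) ∈ h} =
        (A.choose h f) o := by
      intro o
      rw [ih (List.mem_cons_of_mem _ hm), mul_one]
    rw [tsum_congr h1, PMF.tsum_coe]

omit [Fintype V] in
theorem Ex_nonneg (H : Par ε Δ) (r : List (Sym2 V)) (h : History V Δ) {φ : History V Δ → ℝ}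
    (hφ : ∀ h, 0 ≤ φ h) : 0 ≤ Ex ε r h φ := by
  have := Ex_mono H r h hφ
  rwa [Ex_const] at this

omit [Fintype V] in
theorem Ex_le_run (H : Par ε Δ) (e : Sym2 V) (post pre : List (Sym2 V)) (h : History V Δ) :
    ENNReal.ofReal (Ex ε pre h (fun h => ∑ c, pol ε (W ε h) e c)) ≤
      ((alg V H).run h (pre ++ e :: post)).toOuterMeasure
        {h | ∃ c : Fin Δ, (e, some c) ∈ h} := by
  induction pre generalizing h with
  | nil =>
    have hW := W_good H h
    simp only [Ex, List.nil_append, OnlineAlg.run]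
    rw [PMF.toOuterMeasure_bind_apply, tsum_fintype, Fintype.sum_option,
      ENNReal.ofReal_sum_of_nonneg fun c _ => pol_nonneg H hW e c]
    refine le_trans ?_ le_add_self
    refine Finset.sum_le_sum fun c _ => ?_
    rw [run_of_mem (alg V H) post (c := c) (by simp), mul_one]
    exact le_rfl
  | cons f pre ih =>
    have hW := W_good H h
    simp only [Ex, List.cons_append, OnlineAlg.run]
    rw [PMF.toOuterMeasure_bind_apply, tsum_fintype, ENNReal.ofReal_sum_of_nonneg fun o _ =>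
      mul_nonneg (q_nonneg H hW f o) (Ex_nonneg H pre _ fun h =>
        Finset.sum_nonneg fun c _ => pol_nonneg H (W_good H h) e c)]
    refine Finset.sum_le_sum fun o _ => ?_
    rw [ENNReal.ofReal_mul (q_nonneg H hW f o)]
    exact mul_le_mul' le_rfl (ih _)

/-- the quantitative statement with the parameter `ε` -/
theorem main_eps (H : Par ε Δ) {G : SimpleGraph V} {es : List (Sym2 V)}
    (hdeg : ∀ v, (G.neighborSet v).ncard ≤ Δ) (hnd : es.Nodup)
    (hes : ∀ e, e ∈ es ↔ e ∈ G.edgeSet) {e : Sym2 V} (he : e ∈ es) :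
    ENNReal.ofReal (1 - ε - 128 * κ Δ ε ^ 2 * Δ / ε ^ 5 - 8 * κ Δ ε / ε ^ 4) ≤
      (alg V H).probColoured es e := by
  obtain ⟨pre, post, rfl⟩ := List.append_of_mem he
  have hG := (hes e).1 he
  induction e with
  | _ u v =>
    have huv : u ≠ v := (SimpleGraph.mem_edgeSet G).1 hG |>.ne
    have hd : ∀ x : V,
        (Finset.univ.filter fun w => s(x, w) ∈ pre ++ s(u, v) :: post).card ≤ Δ := by
      intro x
      refine le_trans (le_of_eq ?_) (hdeg x)
      rw [← Set.ncard_coe_finset]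
      congr 1
      ext w
      simp only [Finset.coe_filter, Finset.mem_univ, true_and, Set.mem_setOf_eq,
        SimpleGraph.mem_neighborSet]
      rw [hes, SimpleGraph.mem_edgeSet]
    exact (ENNReal.ofReal_le_ofReal (Ex_sum_pol H huv hnd hd)).trans
      (Ex_le_run H s(u, v) post pre [])

/-- the algorithm that never colours -/
def trivialAlg (V : Type*) (Δ : ℕ) : OnlineAlg V Δ where
  choose _ _ := PMF.pure none
  proper h e f c v _ _ _ := by
    rw [PMF.support_pure]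
    simp

theorem loss_bound (H : Par ε Δ) {x : ℝ} (hx : 0 < x) (hε : ε = 3 * x)
    (hΔ : x ^ 6 * (Δ : ℝ) = 1) :
    1 - 6 * x ≤ 1 - ε - 128 * κ Δ ε ^ 2 * Δ / ε ^ 5 - 8 * κ Δ ε / ε ^ 4 := by
  have hp := H.pos
  have hle := H.le
  have hk := κ_nonneg H
  have hD := H.Δ_pos
  have h1 : κ Δ ε * Δ ≤ 1 := by rw [κ_mul H]; linarith
  have h2 : κ Δ ε ≤ x ^ 6 := by
    have := κ_le H
    have h3 : 1 / (Δ : ℝ) = x ^ 6 := by
      rw [← hΔ]; field_simp
    rwa [h3] at this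
  have h3 : 128 * κ Δ ε ^ 2 * Δ / ε ^ 5 ≤ x := by
    have e1 : 128 * κ Δ ε ^ 2 * Δ ≤ 128 * x ^ 6 := by
      have : κ Δ ε ^ 2 * Δ ≤ x ^ 6 := by
        calc κ Δ ε ^ 2 * Δ = κ Δ ε * (κ Δ ε * Δ) := by ring
          _ ≤ κ Δ ε * 1 := mul_le_mul_of_nonneg_left h1 hk
          _ ≤ x ^ 6 := by linarith
      linarith
    rw [div_le_iff₀ (by positivity)]
    have e2 : x * ε ^ 5 = 243 * x ^ 6 := by rw [hε]; ring
    rw [e2]
    have : 0 < x ^ 6 := by positivity
    linarith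
  have h4 : 8 * κ Δ ε / ε ^ 4 ≤ x := by
    rw [div_le_iff₀ (by positivity)]
    have e1 : x * ε ^ 4 = 81 * x ^ 5 := by rw [hε]; ring
    rw [e1]
    have e2 : x ^ 6 ≤ x ^ 5 := by
      have hx1 : x ≤ 1 := by linarith
      calc x ^ 6 = x ^ 5 * x := by ring
        _ ≤ x ^ 5 * 1 := mul_le_mul_of_nonneg_left hx1 (by positivity)
        _ = x ^ 5 := mul_one _
    have : 0 < x ^ 5 := by positivity
    linarith
  linarith

/-- **The main theorem.** -/
theorem main (Δ : ℕ) (hΔ : 1 ≤ Δ) (V : Type*) [Finite V] :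
    ∃ A : OnlineAlg V Δ, ∀ (G : SimpleGraph V) (es : List (Sym2 V)),
      (∀ v, (G.neighborSet v).ncard ≤ Δ) → es.Nodup → (∀ e, e ∈ es ↔ e ∈ G.edgeSet) →
      ∀ e ∈ es, ENNReal.ofReal (1 - 6 * (Δ : ℝ) ^ (-(1 / 6) : ℝ)) ≤ A.probColoured es e := by
  haveI := Fintype.ofFinite V
  have hD : (0 : ℝ) < Δ := by exact_mod_cast hΔ
  set x : ℝ := (Δ : ℝ) ^ (-(1 / 6) : ℝ) with hx
  have hx0 : 0 < x := Real.rpow_pos_of_pos hD _
  have hx6 : x ^ 6 * (Δ : ℝ) = 1 := by
    have h1 : x ^ 6 = (Δ : ℝ) ^ (-1 : ℝ) := by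
      rw [hx, ← Real.rpow_natCast, ← Real.rpow_mul hD.le]
      norm_num
    rw [h1, Real.rpow_neg_one]
    field_simp
  by_cases hbig : 6 * x ≤ 1
  · have H : Par (3 * x) Δ := by
      refine ⟨by positivity, by linarith, ?_⟩
      rw [div_le_iff₀ (by positivity)]
      have e1 : (Δ : ℝ) * (3 * x) ^ 2 = 9 * (Δ * x ^ 2) := by ring
      rw [e1]
      have e2 : 1 ≤ (Δ : ℝ) * x ^ 2 := by
        have : x ^ 6 ≤ x ^ 2 := pow_le_pow_of_le_one hx0.le (by linarith) (by norm_num)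
        calc (1 : ℝ) = x ^ 6 * Δ := hx6.symm
          _ ≤ x ^ 2 * Δ := mul_le_mul_of_nonneg_right this hD.le
          _ = Δ * x ^ 2 := mul_comm _ _
      linarith
    refine ⟨alg V H, fun G es hdeg hnd hes e he => ?_⟩
    exact (ENNReal.ofReal_le_ofReal (loss_bound H hx0 rfl hx6)).trans
      (main_eps H hdeg hnd hes he)
  · refine ⟨trivialAlg V Δ, fun G es _ _ _ e _ => ?_⟩
    rw [ENNReal.ofReal_of_nonpos (by linarith)]
    exact zero_le

end Pool.Agent.Helper40.OE
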