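import Pool.Agent.Helper40.OE.Alg

/-!
The potentials.
-/

open scoped ENNReal
open Finset Classical

noncomputable section

namespace Pool.Agent.Helper40.OE

variable {V : Type*} [Fintype V] {Δ : ℕ} {ε : ℝ}

theorem sum_quad (H : Par ε Δ) {w : V → Fin Δ → ℝ} (hw : Good ε w) (f : Sym2 V) (c : Fin Δ)
    (α β γ : ℝ) : ∑ o, q ε w f o * (α + β * X ε w f c o + γ * (X ε w f c o) ^ 2) =
      α + β + γ * v2 ε w f c := by
  have h1 : ∀ o, q ε w f o * (α + β * X ε w f c o + γ * (X ε w f c o) ^ 2) =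
      α * q ε w f o + β * (q ε w f o * X ε w f c o) + γ * (q ε w f o * (X ε w f c o) ^ 2) := by
    intro o; ring
  rw [Finset.sum_congr rfl fun o _ => h1 o, Finset.sum_add_distrib, Finset.sum_add_distrib,
    ← Finset.mul_sum, ← Finset.mul_sum, ← Finset.mul_sum, EX_one H hw, sum_q]
  unfold v2; ring

/-! ### The degree potential -/

/-- frozen part of the sum at `u` -/
def Z (ε : ℝ) (u : V) (c : Fin Δ) : History V Δ → ℝ
  | [] => 0
  | (f, _) :: h => Z ε u c h + κ Δ ε * ∑ w, if f = s(u, w) then W ε h w c else 0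

/-- frozen part of the sum of squares at `u` -/
def Zq (ε : ℝ) (u : V) (c : Fin Δ) : History V Δ → ℝ
  | [] => 0
  | (f, _) :: h => Zq ε u c h + ∑ w, if f = s(u, w) then (W ε h w c) ^ 2 else 0

/-- the sum at `u` -/
def M (ε : ℝ) (u : V) (c : Fin Δ) (h : History V Δ) (r : List (Sym2 V)) : ℝ :=
  Z ε u c h + κ Δ ε * ∑ w, if s(u, w) ∈ r then W ε h w c else 0

/-- the sum of squares at `u` -/
def S (ε : ℝ) (u : V) (c : Fin Δ) (h : History V Δ) (r : List (Sym2 V)) : ℝ :=
  Zq ε u c h + ∑ w, if s(u, w) ∈ r then (W ε h w c) ^ 2 else 0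

/-- the active part -/
def A1 (ε : ℝ) (u : V) (c : Fin Δ) (h : History V Δ) (f : Sym2 V) (r : List (Sym2 V)) : ℝ :=
  ∑ w, if s(u, w) ∈ r ∧ w ∈ f then W ε h w c else 0

/-- the active part, squares -/
def A2 (ε : ℝ) (u : V) (c : Fin Δ) (h : History V Δ) (f : Sym2 V) (r : List (Sym2 V)) : ℝ :=
  ∑ w, if s(u, w) ∈ r ∧ w ∈ f then (W ε h w c) ^ 2 else 0

theorem M_step (u : V) (c : Fin Δ) (h : History V Δ) {f : Sym2 V} {r : List (Sym2 V)}
    (hf : f ∉ r) (o : Option (Fin Δ)) :
    M ε u c ((f, o) :: h) r = M ε u c h (f :: r) +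
      κ Δ ε * A1 ε u c h f r * (X ε (W ε h) f c o - 1) := by
  have key : (∑ w, if f = s(u, w) then W ε h w c else 0) +
      (∑ w, if s(u, w) ∈ r then W ε ((f, o) :: h) w c else 0) =
      (∑ w, if s(u, w) ∈ f :: r then W ε h w c else 0) +
      A1 ε u c h f r * (X ε (W ε h) f c o - 1) := by
    unfold A1
    rw [Finset.sum_mul, ← Finset.sum_add_distrib, ← Finset.sum_add_distrib]
    refine Finset.sum_congr rfl fun w _ => ?_
    rw [W_cons]
    by_cases h1 : f = s(u, w)
    · have h2 : s(u, w) ∉ r := h1 ▸ hf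
      simp [h1, h2]
    · have h1' : s(u, w) ≠ f := fun hh => h1 hh.symm
      by_cases h2 : s(u, w) ∈ r
      · by_cases h3 : w ∈ f
        · simp [h1, h2, h3]; ring
        · simp [h1, h2, h3]
      · simp [h1, h1', h2]
  unfold M
  simp only [Z]
  linear_combination κ Δ ε * key

theorem S_step (u : V) (c : Fin Δ) (h : History V Δ) {f : Sym2 V} {r : List (Sym2 V)}
    (hf : f ∉ r) (o : Option (Fin Δ)) :
    S ε u c ((f, o) :: h) r = S ε u c h (f :: r) +
      A2 ε u c h f r * ((X ε (W ε h) f c o) ^ 2 - 1) := by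
  have key : (∑ w, if f = s(u, w) then (W ε h w c) ^ 2 else 0) +
      (∑ w, if s(u, w) ∈ r then (W ε ((f, o) :: h) w c) ^ 2 else 0) =
      (∑ w, if s(u, w) ∈ f :: r then (W ε h w c) ^ 2 else 0) +
      A2 ε u c h f r * ((X ε (W ε h) f c o) ^ 2 - 1) := by
    unfold A2
    rw [Finset.sum_mul, ← Finset.sum_add_distrib, ← Finset.sum_add_distrib]
    refine Finset.sum_congr rfl fun w _ => ?_
    rw [W_cons]
    by_cases h1 : f = s(u, w)
    · have h2 : s(u, w) ∉ r := h1 ▸ hf
      simp [h1, h2]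
    · have h1' : s(u, w) ≠ f := fun hh => h1 hh.symm
      by_cases h2 : s(u, w) ∈ r
      · by_cases h3 : w ∈ f
        · simp [h1, h2, h3]; ring
        · simp [h1, h2, h3]
      · simp [h1, h1', h2]
  unfold S
  simp only [Zq]
  linear_combination key

theorem A1_sq_le (u : V) (c : Fin Δ) (h : History V Δ) (f : Sym2 V) (r : List (Sym2 V)) :
    (A1 ε u c h f r) ^ 2 ≤ 2 * A2 ε u c h f r := by
  unfold A1 A2
  rw [← Finset.sum_filter, ← Finset.sum_filter]
  refine (sq_sum_le_card_mul_sum_sq).trans ?_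
  refine mul_le_mul_of_nonneg_right ?_ (Finset.sum_nonneg fun _ _ => sq_nonneg _)
  have : (Finset.univ.filter fun w => s(u, w) ∈ r ∧ w ∈ f).card ≤ 2 := by
    induction f with
    | _ x y =>
      refine (Finset.card_le_card (t := {x, y}) fun w hw => ?_).trans Finset.card_le_two
      simp only [Finset.mem_filter, Finset.mem_univ, true_and, Sym2.mem_iff] at hw
      simpa using hw.2
  exact_mod_cast this

theorem A2_nonneg (u : V) (c : Fin Δ) (h : History V Δ) (f : Sym2 V) (r : List (Sym2 V)) :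
    0 ≤ A2 ε u c h f r :=
  Finset.sum_nonneg fun w _ => by split_ifs <;> positivity

theorem Ex_M (H : Par ε Δ) (u : V) (c : Fin Δ) {pre post : List (Sym2 V)}
    (hnd : (pre ++ post).Nodup) :
    Ex ε pre [] (fun h => M ε u c h post) ≤ M ε u c [] (pre ++ post) := by
  refine Ex_super H (fun h r => M ε u c h r) post (fun h f r _ hf => ?_) pre [] hnd
  have h1 : ∀ o, q ε (W ε h) f o * M ε u c ((f, o) :: h) r = q ε (W ε h) f o *
      ((M ε u c h (f :: r) - κ Δ ε * A1 ε u c h f r) +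
        (κ Δ ε * A1 ε u c h f r) * X ε (W ε h) f c o + 0 * (X ε (W ε h) f c o) ^ 2) := by
    intro o; rw [M_step u c h hf]; ring
  rw [Finset.sum_congr rfl fun o _ => h1 o, sum_quad H (W_good H h)]
  linarith

theorem Ex_MS (H : Par ε Δ) (u : V) (c : Fin Δ) {pre post : List (Sym2 V)}
    (hnd : (pre ++ post).Nodup) (m0 : ℝ) :
    Ex ε pre [] (fun h => (M ε u c h post - m0) ^ 2 - 2 * κ Δ ε ^ 2 * S ε u c h post) ≤
      (M ε u c [] (pre ++ post) - m0) ^ 2 - 2 * κ Δ ε ^ 2 * S ε u c [] (pre ++ post) := by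
  refine Ex_super H (fun h r => (M ε u c h r - m0) ^ 2 - 2 * κ Δ ε ^ 2 * S ε u c h r) post
    (fun h f r _ hf => ?_) pre [] hnd
  set A := A1 ε u c h f r with hA
  set B := A2 ε u c h f r with hB
  set m := M ε u c h (f :: r) with hm
  set s := S ε u c h (f :: r) with hs
  have h1 : ∀ o, q ε (W ε h) f o * ((M ε u c ((f, o) :: h) r - m0) ^ 2 -
      2 * κ Δ ε ^ 2 * S ε u c ((f, o) :: h) r) = q ε (W ε h) f o *
      (((m - m0) ^ 2 - 2 * (m - m0) * (κ Δ ε * A) + κ Δ ε ^ 2 * A ^ 2 - 2 * κ Δ ε ^ 2 * s +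
        2 * κ Δ ε ^ 2 * B) + (2 * (m - m0) * (κ Δ ε * A) - 2 * (κ Δ ε ^ 2 * A ^ 2)) *
          X ε (W ε h) f c o +
        (κ Δ ε ^ 2 * A ^ 2 - 2 * κ Δ ε ^ 2 * B) * (X ε (W ε h) f c o) ^ 2) := by
    intro o; rw [M_step u c h hf, S_step u c h hf]; ring
  rw [Finset.sum_congr rfl fun o _ => h1 o, sum_quad H (W_good H h)]
  have h2 := v2_ge H (W_good H h) f c
  have h3 : A ^ 2 ≤ 2 * B := A1_sq_le u c h f r
  have h4 : 0 ≤ κ Δ ε ^ 2 * (2 * B - A ^ 2) * (v2 ε (W ε h) f c - 1) :=
    mul_nonneg (mul_nonneg (sq_nonneg _) (by linarith)) (by linarith)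
  nlinarith

theorem Z_nonneg (H : Par ε Δ) (u : V) (c : Fin Δ) (h : History V Δ) : 0 ≤ Z ε u c h := by
  induction h with
  | nil => exact le_rfl
  | cons fo h ih =>
    simp only [Z]
    refine add_nonneg ih (mul_nonneg (κ_nonneg H) (Finset.sum_nonneg fun w _ => ?_))
    split_ifs
    · exact (W_good H h w c).1
    · exact le_rfl

theorem Zq_le (H : Par ε Δ) (u : V) (c : Fin Δ) (h : History V Δ) :
    κ Δ ε * Zq ε u c h ≤ 2 / ε * Z ε u c h := by
  induction h with
  | nil => simp [Zq, Z]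
  | cons fo h ih =>
    obtain ⟨f, o⟩ := fo
    simp only [Z, Zq]
    have h1 : (∑ w, if f = s(u, w) then (W ε h w c) ^ 2 else 0) ≤
        2 / ε * ∑ w, if f = s(u, w) then W ε h w c else 0 := by
      rw [Finset.mul_sum]
      refine Finset.sum_le_sum fun w _ => ?_
      have h2 := W_good H h w c
      split_ifs
      · rw [sq]; exact mul_le_mul_of_nonneg_right h2.2 h2.1
      · simp
    have h3 := mul_le_mul_of_nonneg_left h1 (κ_nonneg H)
    linarith

theorem S_le (H : Par ε Δ) (u : V) (c : Fin Δ) (h : History V Δ) (r : List (Sym2 V)) :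
    κ Δ ε * S ε u c h r ≤ 2 / ε * M ε u c h r := by
  unfold S M
  have h1 : (∑ w, if s(u, w) ∈ r then (W ε h w c) ^ 2 else 0) ≤
      2 / ε * ∑ w, if s(u, w) ∈ r then W ε h w c else 0 := by
    rw [Finset.mul_sum]
    refine Finset.sum_le_sum fun w _ => ?_
    have h2 := W_good H h w c
    split_ifs
    · rw [sq]; exact mul_le_mul_of_nonneg_right h2.2 h2.1
    · simp
  have h3 := mul_le_mul_of_nonneg_left h1 (κ_nonneg H)
  have h4 := Zq_le H u c h
  linarith

theorem S_nonneg (u : V) (c : Fin Δ) (r : List (Sym2 V)) :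
    0 ≤ S ε u c ([] : History V Δ) r := by
  unfold S
  simp only [Zq, zero_add]
  exact Finset.sum_nonneg fun w _ => by split_ifs <;> positivity

/-- second moment bound for the sum at `u` -/
theorem Ex_M_sq (H : Par ε Δ) (u : V) (c : Fin Δ) {pre post : List (Sym2 V)}
    (hnd : (pre ++ post).Nodup) (hM0 : M ε u c [] (pre ++ post) ≤ 1) :
    Ex ε pre [] (fun h => (M ε u c h post - M ε u c [] (pre ++ post)) ^ 2) ≤
      4 * κ Δ ε / ε := by
  have hp := H.pos
  have h1 := Ex_MS H u c hnd (M ε u c [] (pre ++ post))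
  have h2 := S_nonneg (ε := ε) u c (pre ++ post)
  have hk := κ_nonneg H
  have h3 : Ex ε pre [] (fun h => (M ε u c h post - M ε u c [] (pre ++ post)) ^ 2) =
      Ex ε pre [] (fun h => ((M ε u c h post - M ε u c [] (pre ++ post)) ^ 2 -
        2 * κ Δ ε ^ 2 * S ε u c h post)) + Ex ε pre [] (fun h => 2 * κ Δ ε ^ 2 *
        S ε u c h post) := by
    rw [← Ex_add]; congr 1; funext h; ring
  have h4 : Ex ε pre [] (fun h => 2 * κ Δ ε ^ 2 * S ε u c h post) ≤
      Ex ε pre [] (fun h => (4 * κ Δ ε / ε) * M ε u c h post) := by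
    refine Ex_mono H pre [] fun h => ?_
    have := mul_le_mul_of_nonneg_left (S_le H u c h post) hk
    have e1 : 2 * κ Δ ε ^ 2 * S ε u c h post = 2 * (κ Δ ε * (κ Δ ε * S ε u c h post)) := by ring
    have e2 : (4 * κ Δ ε / ε) * M ε u c h post = 2 * (κ Δ ε * (2 / ε * M ε u c h post)) := by
      ring
    rw [e1, e2]
    linarith
  have h4' : Ex ε pre [] (fun h => (4 * κ Δ ε / ε) * M ε u c h post) =
      (4 * κ Δ ε / ε) * Ex ε pre [] (fun h => M ε u c h post) := Ex_mul _ _ _ _
  have h5 := Ex_M H u c hnd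
  have h6 : 0 ≤ 4 * κ Δ ε / ε := by positivity
  have h7 : (4 * κ Δ ε / ε) * Ex ε pre [] (fun h => M ε u c h post) ≤ (4 * κ Δ ε / ε) * 1 :=
    mul_le_mul_of_nonneg_left (h5.trans hM0) h6
  have h8 : 0 ≤ 2 * κ Δ ε ^ 2 * S ε u c ([] : History V Δ) (pre ++ post) := by positivity
  rw [h3]
  have h9 : (M ε u c ([] : History V Δ) (pre ++ post) - M ε u c [] (pre ++ post)) ^ 2 = 0 := by
    rw [sub_self]; norm_num
  linarith

/-- while the colour is free, the weight is controlled by the frozen sum -/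
theorem W_mul_le (H : Par ε Δ) (u : V) (c : Fin Δ) (h : History V Δ) :
    W ε h u c * (1 - Z ε u c h) ≤ 1 := by
  induction h with
  | nil => simp [W, Z]
  | cons fo h ih =>
    obtain ⟨f, o⟩ := fo
    have hW := W_good H h
    by_cases hu : u ∈ f
    · obtain ⟨w0, rfl⟩ := Sym2.mem_iff_exists.1 hu
      have hZ : Z ε u c ((s(u, w0), o) :: h) = Z ε u c h + κ Δ ε * W ε h w0 c := by
        simp only [Z]
        congr 2
        rw [Finset.sum_eq_single w0]
        · simp
        · intro w _ hw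
          rw [if_neg]
          intro hh
          exact hw (Sym2.congr_right.1 hh).symm
        · intro hh; exact absurd (Finset.mem_univ _) hh
      rw [hZ]
      simp only [W, if_pos hu]
      split_ifs with ho
      · simp
      · have h1 := pol_le_half H hW s(u, w0) c
        have h2 := pol_le H hW s(u, w0) c
        rw [pc_mk] at h2
        have h3 : 0 < 1 - pol ε (W ε h) s(u, w0) c := by linarith
        rw [div_mul_eq_mul_div, div_le_one h3]
        nlinarith
    · have hZ : Z ε u c ((f, o) :: h) = Z ε u c h := by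
        simp only [Z]
        rw [Finset.sum_eq_zero, mul_zero, add_zero]
        intro w _
        rw [if_neg]
        rintro rfl
        exact hu (Sym2.mem_mk_left u w)
      rw [hZ]
      simp only [W, if_neg hu]
      exact ih

/-- a truncation forces the sum to be large -/
theorem M_large (H : Par ε Δ) {u v : V} (c : Fin Δ) (h : History V Δ) {r : List (Sym2 V)}
    (he : s(u, v) ∈ r)
    (ht : 2 / ε < W ε h u c / (1 - κ Δ ε * (W ε h u c * W ε h v c))) :
    1 - ε / 2 < M ε u c h r := by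
  have hp := H.pos
  have hW := W_good H h
  have h1 := W_mul_le H u c h
  have h2 := pc_le_half H hW s(u, v) c
  rw [pc_mk] at h2
  set a := W ε h u c with ha
  set b := W ε h v c with hb
  have h3 : 0 < 1 - κ Δ ε * (a * b) := by linarith
  rw [lt_div_iff₀ h3] at ht
  have ha0 : 0 < a := by
    have : 0 < 2 / ε * (1 - κ Δ ε * (a * b)) := by positivity
    linarith
  have h4 : κ Δ ε * b ≤ κ Δ ε * ∑ w, if s(u, w) ∈ r then W ε h w c else 0 := by
    refine mul_le_mul_of_nonneg_left ?_ (κ_nonneg H)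
    have h5 : b = if s(u, v) ∈ r then W ε h v c else 0 := by rw [if_pos he]
    rw [h5]
    refine Finset.single_le_sum (f := fun w => if s(u, w) ∈ r then W ε h w c else 0)
      (fun w _ => ?_) (Finset.mem_univ v)
    split_ifs
    · exact (hW w c).1
    · exact le_rfl
  have h6 : 1 - ε / 2 < Z ε u c h + κ Δ ε * b := by
    have h7 : 2 / ε * (1 - κ Δ ε * (a * b)) < a := ht
    have h8 : 2 * (1 - κ Δ ε * (a * b)) < a * ε := by
      have := mul_lt_mul_of_pos_right h7 hp
      calc 2 * (1 - κ Δ ε * (a * b)) = 2 / ε * (1 - κ Δ ε * (a * b)) * ε := by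
            field_simp
        _ < a * ε := this
    have h9 : a * (1 - Z ε u c h - κ Δ ε * b) < a * (ε / 2) := by nlinarith
    have h10 := lt_of_mul_lt_mul_left h9 ha0.le
    linarith
  unfold M
  linarith

/-! ### The colour potential -/

/-- sum over colours -/
def T (ε : ℝ) (u v : V) (h : History V Δ) : ℝ := κ Δ ε * ∑ c, W ε h u c * W ε h v c

/-- sum over colours, squares -/
def Q (ε : ℝ) (u v : V) (h : History V Δ) : ℝ := ∑ c, (W ε h u c * W ε h v c) ^ 2

omit [Fintype V] in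
theorem Y_step {u v : V} (huv : u ≠ v) (h : History V Δ) {f : Sym2 V} (hf : f ≠ s(u, v)) :
    (∀ o c, W ε ((f, o) :: h) u c * W ε ((f, o) :: h) v c =
      W ε h u c * W ε h v c * X ε (W ε h) f c o) ∨
    (∀ o c, W ε ((f, o) :: h) u c * W ε ((f, o) :: h) v c = W ε h u c * W ε h v c) := by
  by_cases hu : u ∈ f
  · have hv : v ∉ f := fun hv => hf ((Sym2.mem_and_mem_iff huv).1 ⟨hu, hv⟩)
    left
    intro o c
    rw [W_cons, W_cons, if_pos hu, if_neg hv]; ring
  · by_cases hv : v ∈ f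
    · left
      intro o c
      rw [W_cons, W_cons, if_neg hu, if_pos hv]; ring
    · right
      intro o c
      rw [W_cons, W_cons, if_neg hu, if_neg hv]

omit [Fintype V] in
theorem Ex_T (H : Par ε Δ) {u v : V} (huv : u ≠ v) {pre post : List (Sym2 V)}
    (hnd : (pre ++ s(u, v) :: post).Nodup) (a : ℝ) :
    Ex ε pre ([] : History V Δ) (fun h => a * T ε u v h) ≤ a * T ε u v ([] : History V Δ) := by
  refine Ex_super H (fun h _ => a * T ε u v h) (s(u, v) :: post)
    (fun h f r hr hf => ?_) pre [] hnd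
  have hne : f ≠ s(u, v) := fun hh => hf (hh ▸ hr _ (by simp))
  rcases Y_step (ε := ε) huv h hne with hY | hY
  · have h1 : ∀ o, q ε (W ε h) f o * (a * T ε u v ((f, o) :: h)) =
        ∑ c, a * κ Δ ε * (W ε h u c * W ε h v c) * (q ε (W ε h) f o * X ε (W ε h) f c o) := by
      intro o
      unfold T
      simp only [hY, Finset.mul_sum]
      exact Finset.sum_congr rfl fun c _ => by ring
    rw [Finset.sum_congr rfl fun o _ => h1 o, Finset.sum_comm]
    simp only [← Finset.mul_sum, EX_one H (W_good H h), mul_one]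
    refine le_of_eq ?_
    unfold T
    ring
  · have h1 : ∀ o, q ε (W ε h) f o * (a * T ε u v ((f, o) :: h)) =
        q ε (W ε h) f o * (a * T ε u v h) := by
      intro o
      unfold T
      simp only [hY]
    rw [Finset.sum_congr rfl fun o _ => h1 o, ← Finset.sum_mul, sum_q, one_mul]

omit [Fintype V] in
theorem Ex_TQ (H : Par ε Δ) {u v : V} (huv : u ≠ v) {pre post : List (Sym2 V)}
    (hnd : (pre ++ s(u, v) :: post).Nodup) (t0 : ℝ) :
    Ex ε pre ([] : History V Δ) (fun h => (T ε u v h - t0) ^ 2 - κ Δ ε ^ 2 * Q ε u v h) ≤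
      (T ε u v ([] : History V Δ) - t0) ^ 2 - κ Δ ε ^ 2 * Q ε u v ([] : History V Δ) := by
  refine Ex_super H (fun h _ => (T ε u v h - t0) ^ 2 - κ Δ ε ^ 2 * Q ε u v h)
    (s(u, v) :: post) (fun h f r hr hf => ?_) pre [] hnd
  have hne : f ≠ s(u, v) := fun hh => hf (hh ▸ hr _ (by simp))
  have hW := W_good H h
  rcases Y_step (ε := ε) huv h hne with hY | hY
  · set Y : Fin Δ → ℝ := fun c => W ε h u c * W ε h v c with hYdef
    have hY0 : ∀ c, 0 ≤ Y c := fun c => mul_nonneg (hW u c).1 (hW v c).1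
    set x : Fin Δ → Option (Fin Δ) → ℝ := fun c o => X ε (W ε h) f c o with hx
    have hT : T ε u v h = κ Δ ε * ∑ c, Y c := rfl
    have hQ : Q ε u v h = ∑ c, (Y c) ^ 2 := rfl
    have hT' : ∀ o, T ε u v ((f, o) :: h) = κ Δ ε * ∑ c, Y c * x c o := by
      intro o; unfold T; simp only [hY]; rfl
    have hQ' : ∀ o, Q ε u v ((f, o) :: h) = ∑ c, (Y c * x c o) ^ 2 := by
      intro o; unfold Q; simp only [hY]; rfl
    -- first and second moments
    have m1 : ∑ o, q ε (W ε h) f o * ∑ c, Y c * x c o = ∑ c, Y c := by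
      simp only [Finset.mul_sum]
      rw [Finset.sum_comm]
      refine Finset.sum_congr rfl fun c _ => ?_
      have : ∀ o, q ε (W ε h) f o * (Y c * x c o) = Y c * (q ε (W ε h) f o * x c o) := by
        intro o; ring
      rw [Finset.sum_congr rfl fun o _ => this o, ← Finset.mul_sum, EX_one H hW, mul_one]
    have m2 : ∑ o, q ε (W ε h) f o * (∑ c, Y c * x c o) ^ 2 ≤
        (∑ c, Y c) ^ 2 + ∑ c, (Y c) ^ 2 * (v2 ε (W ε h) f c - 1) := by
      have e1 : ∀ o, q ε (W ε h) f o * (∑ c, Y c * x c o) ^ 2 =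
          ∑ c, ∑ c', Y c * Y c' * (q ε (W ε h) f o * (x c o * x c' o)) := by
        intro o
        rw [sq, Finset.sum_mul_sum, Finset.mul_sum]
        refine Finset.sum_congr rfl fun c _ => ?_
        rw [Finset.mul_sum]
        exact Finset.sum_congr rfl fun c' _ => by ring
      rw [Finset.sum_congr rfl fun o _ => e1 o, Finset.sum_comm]
      have e2 : (∑ c, Y c) ^ 2 + ∑ c, (Y c) ^ 2 * (v2 ε (W ε h) f c - 1) =
          ∑ c, ∑ c', (Y c * Y c' + if c' = c then (Y c) ^ 2 * (v2 ε (W ε h) f c - 1) else 0) := by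
        rw [sq, Finset.sum_mul_sum, ← Finset.sum_add_distrib]
        refine Finset.sum_congr rfl fun c _ => ?_
        rw [Finset.sum_add_distrib, Finset.sum_ite_eq' Finset.univ c, if_pos (Finset.mem_univ _)]
      rw [e2]
      refine Finset.sum_le_sum fun c _ => ?_
      rw [Finset.sum_comm]
      refine Finset.sum_le_sum fun c' _ => ?_
      rw [← Finset.mul_sum]
      by_cases hc : c' = c
      · subst hc
        rw [if_pos rfl]
        have : ∑ o, q ε (W ε h) f o * (x c' o * x c' o) = v2 ε (W ε h) f c' := by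
          unfold v2
          exact Finset.sum_congr rfl fun o _ => by rw [hx]; ring
        rw [this]
        refine le_of_eq ?_
        ring
      · rw [if_neg hc, add_zero]
        have := EXX H hW f (Ne.symm hc)
        calc Y c * Y c' * ∑ o, q ε (W ε h) f o * (x c o * x c' o) ≤ Y c * Y c' * 1 :=
              mul_le_mul_of_nonneg_left this (mul_nonneg (hY0 c) (hY0 c'))
          _ = Y c * Y c' := mul_one _
    have m3 : ∑ o, q ε (W ε h) f o * ∑ c, (Y c * x c o) ^ 2 =
        ∑ c, (Y c) ^ 2 * v2 ε (W ε h) f c := by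
      simp only [Finset.mul_sum]
      rw [Finset.sum_comm]
      refine Finset.sum_congr rfl fun c _ => ?_
      unfold v2
      rw [Finset.mul_sum]
      exact Finset.sum_congr rfl fun o _ => by rw [hx]; ring
    have e3 : ∀ o, q ε (W ε h) f o * ((T ε u v ((f, o) :: h) - t0) ^ 2 -
        κ Δ ε ^ 2 * Q ε u v ((f, o) :: h)) =
        κ Δ ε ^ 2 * (q ε (W ε h) f o * (∑ c, Y c * x c o) ^ 2) -
        2 * t0 * κ Δ ε * (q ε (W ε h) f o * ∑ c, Y c * x c o) + t0 ^ 2 * q ε (W ε h) f o -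
        κ Δ ε ^ 2 * (q ε (W ε h) f o * ∑ c, (Y c * x c o) ^ 2) := by
      intro o; rw [hT', hQ']; ring
    rw [Finset.sum_congr rfl fun o _ => e3 o, Finset.sum_sub_distrib, Finset.sum_add_distrib,
      Finset.sum_sub_distrib, ← Finset.mul_sum, ← Finset.mul_sum, ← Finset.mul_sum,
      ← Finset.mul_sum, m1, m3, sum_q, hT, hQ]
    have m4 := mul_le_mul_of_nonneg_left m2 (sq_nonneg (κ Δ ε))
    have m5 : ∑ c, (Y c) ^ 2 * (v2 ε (W ε h) f c - 1) = ∑ c, (Y c) ^ 2 * v2 ε (W ε h) f c -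
        ∑ c, (Y c) ^ 2 := by
      rw [← Finset.sum_sub_distrib]
      exact Finset.sum_congr rfl fun c _ => by ring
    rw [m5] at m4
    nlinarith
  · have h1 : ∀ o, q ε (W ε h) f o * ((T ε u v ((f, o) :: h) - t0) ^ 2 -
        κ Δ ε ^ 2 * Q ε u v ((f, o) :: h)) =
        q ε (W ε h) f o * ((T ε u v h - t0) ^ 2 - κ Δ ε ^ 2 * Q ε u v h) := by
      intro o
      unfold T Q
      simp only [hY]
    rw [Finset.sum_congr rfl fun o _ => h1 o, ← Finset.sum_mul, sum_q, one_mul]

end Pool.Agent.Helper40.OE
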